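import Mathlib
import Pool.Agent.K7.H41.OP.Stm

set_option autoImplicit false

/-! OP jobs OUT and SWAP. -/

namespace Pool.Agent.K7.H11.OP

open Pool.Agent.K7.H41.OP

/-- JOB OUT -/
theorem out : StOut := by
  intro G _
  constructor
  · intro h φ hφ
    have h1 : (QuotientGroup.mk' (Inn G)) φ ≠ 1 := by
      intro h2
      apply hφ
      rwa [QuotientGroup.mk'_apply, QuotientGroup.eq_one_iff] at h2
    obtain ⟨N, hN1, hN2, hN3⟩ := h _ h1
    refine ⟨N.comap (QuotientGroup.mk' (Inn G)), ?_, ?_, ?_⟩
    · intro x hx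
      rw [Subgroup.mem_comap]
      have : (QuotientGroup.mk' (Inn G)) x = 1 := by
        rw [QuotientGroup.mk'_apply, QuotientGroup.eq_one_iff]
        exact hx
      rw [this]
      exact N.one_mem
    · refine ⟨?_⟩
      rw [Subgroup.index_comap_of_surjective N (QuotientGroup.mk'_surjective (Inn G))]
      exact hN2.index_ne_zero
    · rw [Subgroup.mem_comap]
      exact hN3
  · intro h g hg
    obtain ⟨φ, rfl⟩ := QuotientGroup.mk'_surjective (Inn G) g
    have h1 : φ ∉ Inn G := by
      intro h2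
      apply hg
      rw [QuotientGroup.mk'_apply, QuotientGroup.eq_one_iff]
      exact h2
    obtain ⟨H, hH1, hH2, hH3⟩ := h φ h1
    have hle : Inn G ≤ H.normalCore := Subgroup.normal_le_normalCore.mpr hH1
    have hfi : H.normalCore.FiniteIndex := inferInstance
    refine ⟨H.normalCore.map (QuotientGroup.mk' (Inn G)), ?_, ?_, ?_⟩
    · exact Subgroup.Normal.map inferInstance _ (QuotientGroup.mk'_surjective (Inn G))
    · refine ⟨?_⟩
      rw [← Subgroup.index_comap_of_surjective _ (QuotientGroup.mk'_surjective (Inn G)),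
        Subgroup.comap_map_eq, QuotientGroup.ker_mk', sup_eq_left.mpr hle]
      exact hfi.index_ne_zero
    · intro h2
      rw [Subgroup.mem_map] at h2
      obtain ⟨x, hx, hxφ⟩ := h2
      apply hH3
      rw [QuotientGroup.mk'_apply, QuotientGroup.mk'_apply, QuotientGroup.eq] at hxφ
      have h3 : x * (x⁻¹ * φ) ∈ H.normalCore := H.normalCore.mul_mem hx (hle hxφ)
      rw [mul_inv_cancel_left] at h3
      exact Subgroup.normalCore_le H h3

/-- the exchange of the factors as an isomorphism -/
noncomputable def swE (A B : Type) [Group A] [Group B] : MulAut (A × B) ≃* MulAut (B × A) :=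
  MulAut.congr (MulEquiv.prodComm : A × B ≃* B × A)

theorem swE_apply {A B : Type} [Group A] [Group B] (φ : MulAut (A × B)) : swE A B φ = sw φ := by
  ext x <;> rfl

theorem sw_conj {A B : Type} [Group A] [Group B] (g : A × B) :
    sw (MulAut.conj g : MulAut (A × B)) = MulAut.conj (g.2, g.1) := by
  ext x <;> rfl

theorem be_sw {A B : Type} [Group A] [Group B] (φ : MulAut (A × B)) (a : A) :
    be (sw φ) a = ga φ a := rfl

theorem ga_sw {A B : Type} [Group A] [Group B] (φ : MulAut (A × B)) (b : B) :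
    ga (sw φ) b = be φ b := rfl

theorem sw_inv {A B : Type} [Group A] [Group B] (φ : MulAut (A × B)) : (sw φ)⁻¹ = sw φ⁻¹ := by
  rw [← swE_apply, ← swE_apply, map_inv]

theorem z0_sw {A B : Type} [Group A] [Group B] (φ : MulAut (A × B)) : Z0 (sw φ) ↔ Z0 φ := by
  unfold Z0
  rw [sw_inv]
  have h1 : ∀ ψ : MulAut (A × B), Cen (be (sw ψ)) ↔ Cen (ga ψ) := fun ψ => Iff.rfl
  have h2 : ∀ ψ : MulAut (A × B), Cen (ga (sw ψ)) ↔ Cen (be ψ) := fun ψ => Iff.rfl
  rw [h1, h2, h1, h2]
  tauto

/-- JOB SWAP -/
theorem swap : StSwap := by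
  intro A B _ _
  constructor
  · rintro φ ⟨H, h1, h2, h3⟩
    refine ⟨H.comap (swE A B).toMonoidHom, ?_, ?_, ?_⟩
    · rintro x ⟨g, rfl⟩
      rw [Subgroup.mem_comap]
      apply h1
      refine ⟨(g.2, g.1), ?_⟩
      show _ = swE A B (MulAut.conj g)
      rw [swE_apply, sw_conj]
    · refine ⟨?_⟩
      rw [Subgroup.index_comap_of_surjective H (f := (swE A B).toMonoidHom) (swE A B).surjective]
      exact h2.index_ne_zero
    · rw [Subgroup.mem_comap]
      intro h4
      apply h3
      have h5 : swE A B φ ∈ H := h4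
      rwa [swE_apply] at h5
  · intro h H0 hH0
    have h1 : (H0.comap (swE A B).toMonoidHom).FiniteIndex := by
      apply h
      intro φ
      rw [Subgroup.mem_comap]
      show swE A B φ ∈ H0 ↔ _
      rw [swE_apply, hH0, z0_sw]
    refine ⟨?_⟩
    have h2 := h1.index_ne_zero
    rwa [Subgroup.index_comap_of_surjective H0 (f := (swE A B).toMonoidHom) (swE A B).surjective] at h2

end Pool.Agent.K7.H11.OP
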